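import Pool.Agent.Helper67.SQ.Basic
import Pool.Agent.Helper67.SQ.Asym

/-!
# Returns to the valley (Block 5)
-/

namespace Helper67.SQ

open Real Finset Filter

/-- the statement of the two strand lemma -/
def TwoStrand (Λ : ℝ) : Prop := ∃ c₀ η₀ a₀ : ℝ, 0 < c₀ ∧ c₀ ≤ 1 / 2 ∧ 0 < η₀ ∧ 0 < a₀ ∧
    ∃ n₁ : ℕ, ∀ X Y T : V → ℝ, Coarse Λ X Y T → (∀ p, 0 ≤ T p) →
    ∀ n : ℕ, n₁ ≤ n → ∀ v : V, T v ≤ η₀ * n → ∀ i₁ i₂ : ℕ, i₁ < 2 ^ n → i₂ < 2 ^ n →
    ∀ c₁ c₂ : ℝ, exp (-a₀ * n) ≤ c₂ - c₁ →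
    (∀ a : ℕ, c₀ * n ≤ a → a ≤ n → X (ray v n i₁ a) ≤ c₁) →
    (∀ a : ℕ, c₀ * n ≤ a → a ≤ n → c₂ ≤ X (ray v n i₂ a)) → False

/-- the statement of non-concentration -/
def NonConc (Λ : ℝ) : Prop := ∀ ε κ : ℝ, 0 < ε → 0 < κ → ∃ n₀ : ℕ,
    ∀ X Y T : V → ℝ, Coarse Λ X Y T → ∀ (c : ℝ) (v : V) (n : ℕ), n₀ ≤ n →
    ∀ S : Finset ℕ, (∀ i ∈ S, i < 2 ^ n ∧
      M X T c (desc v n i) < exp (-(ε * n)) * M X T c v) → (S.card : ℝ) ≤ κ * 2 ^ n

/-- variation of `X` along a high piece of a ray -/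
theorem ray_var {Λ : ℝ} {X Y T : V → ℝ} (h : Coarse Λ X Y T) (v : V) (n i n' : ℕ) (δ : ℝ)
    (hT : ∀ a : ℕ, n' ≤ a → a ≤ n → δ ≤ T (ray v n i a)) :
    ∀ k : ℕ, n' + k ≤ n →
      |X (ray v n i (n' + k)) - X (ray v n i n')| ≤ k * (Λ * exp (-δ)) := by
  intro k
  induction k with
  | zero => intro _; simp
  | succ k ih =>
    intro hk
    have h1 := ih (by omega)
    have h2 := h.x_step _ _ (ray_adj v n i (n' + k) (by omega))
    have h3 : Λ * exp (-T (ray v n i (n' + k))) ≤ Λ * exp (-δ) := by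
      apply mul_le_mul_of_nonneg_left _ h.pos.le
      apply exp_le_exp.2
      linarith [hT (n' + k) (by omega) (by omega)]
    rw [abs_sub_comm] at h2
    have e : X (ray v n i (n' + (k + 1))) - X (ray v n i n') =
        (X (ray v n i (n' + k + 1)) - X (ray v n i (n' + k))) +
          (X (ray v n i (n' + k)) - X (ray v n i n')) := by
      rw [← add_assoc]; ring
    rw [e]
    refine (abs_add_le _ _).trans ?_
    push_cast
    linarith

theorem card_le_fiber (S : Finset ℕ) (m : ℕ) :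
    S.card ≤ (S.image (fun i => i / 2 ^ m)).card * 2 ^ m := by
  classical
  rw [Finset.card_eq_sum_card_image (fun i => i / 2 ^ m) S]
  refine (Finset.sum_le_card_nsmul _ _ (2 ^ m) ?_).trans (by rw [smul_eq_mul])
  intro u _
  have : (S.filter (fun i => i / 2 ^ m = u)) ⊆ (Finset.Ico (u * 2 ^ m) ((u + 1) * 2 ^ m)) := by
    intro i hi
    rw [Finset.mem_filter] at hi
    rw [Finset.mem_Ico]
    have hpos : 0 < 2 ^ m := by positivity
    have h1 := Nat.div_add_mod i (2 ^ m)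
    have h2 := Nat.mod_lt i hpos
    rw [hi.2] at h1
    constructor
    · rw [mul_comm u (2 ^ m)]
      exact le_of_le_of_eq (Nat.le_add_right _ _) h1
    · have h3 : (u + 1) * 2 ^ m = 2 ^ m * u + 2 ^ m := by ring
      rw [h3]
      calc i = 2 ^ m * u + i % 2 ^ m := h1.symm
        _ < _ := Nat.add_lt_add_left h2 _
  refine (Finset.card_le_card this).trans ?_
  rw [Nat.card_Ico]
  have h4 : (u + 1) * 2 ^ m = u * 2 ^ m + 2 ^ m := by ring
  rw [h4, Nat.add_sub_cancel_left]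

theorem returns_of (Λ : ℝ) (hTS : TwoStrand Λ) (hNC : NonConc Λ) :
    ∃ c₀ a₁ : ℝ, 0 < c₀ ∧ c₀ ≤ 1 / 2 ∧ 0 < a₁ ∧
    ∀ η η' κ : ℝ, 0 ≤ η → η < η' → η' ≤ a₁ → 0 < κ → ∃ n₂ : ℕ,
    ∀ X Y T : V → ℝ, Coarse Λ X Y T → (∀ p, 0 ≤ T p) →
    ∀ n : ℕ, n₂ ≤ n → ∀ v : V, T v ≤ η * n →
    ∀ S : Finset ℕ, (∀ i ∈ S, i < 2 ^ n ∧
      ∀ a : ℕ, c₀ * n ≤ a → a ≤ n → η' * n < T (ray v n i a)) →
      (S.card : ℝ) ≤ κ * 2 ^ n := by
  classical
  obtain ⟨c₀, η₀, a₀, hc0, hc1, hη0, ha0, n₁, hTS⟩ := hTS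
  refine ⟨c₀, min η₀ (a₀ / 2), hc0, hc1, by positivity, ?_⟩
  intro η η' κ hη hηη' hη' hκ
  have hη'1 : η' ≤ η₀ := hη'.trans (min_le_left _ _)
  have hη'2 : η' ≤ a₀ / 2 := hη'.trans (min_le_right _ _)
  set η₂ := (η + η') / 2 with hη2
  have hη2a : η < η₂ := by rw [hη2]; linarith
  have hη2b : η₂ < η' := by rw [hη2]; linarith
  set ε := (η₂ - η) / 2 with hε
  have hε0 : 0 < ε := by rw [hε]; linarith
  obtain ⟨n₀, hNC⟩ := hNC ε κ hε0 hκ
  -- asymptotics
  have hev : ∀ᶠ n : ℕ in atTop, 3 * Λ * (n : ℝ) ≤ exp ((η' - η₂) * n) ∧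
      3 ≤ exp ((a₀ - η₂) * n) := by
    have e1 := ev_nat (ev_mono_le_exp (3 * Λ) (η' - η₂) (by linarith) 1)
    have e2 := ev_nat (ev_mono_le_exp 3 (a₀ - η₂) (by linarith) 0)
    filter_upwards [e1, e2] with n h1 h2
    exact ⟨by simpa using h1, by simpa using h2⟩
  obtain ⟨n₃, hn₃⟩ := eventually_atTop.1 hev
  obtain ⟨n₄, hn₄⟩ := exists_nat_ge ((n₀ : ℝ) / c₀)
  refine ⟨max (max n₁ n₃) (max n₄ 1), ?_⟩
  intro X Y T hC hT n hn v hv S hS
  have hn1 : n₁ ≤ n := (le_max_left _ _).trans ((le_max_left _ _).trans hn)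
  have hn3 : n₃ ≤ n := (le_max_right _ _).trans ((le_max_left _ _).trans hn)
  have hn4 : n₄ ≤ n := (le_max_left _ _).trans ((le_max_right _ _).trans hn)
  have hnpos : 1 ≤ n := (le_max_right _ _).trans ((le_max_right _ _).trans hn)
  have hnR : (0 : ℝ) < n := by exact_mod_cast hnpos
  obtain ⟨has1, has2⟩ := hn₃ n hn3
  by_contra hcon
  push Not at hcon
  -- the depth n'
  set n' := ⌈c₀ * (n : ℝ)⌉₊ with hn'
  have hn'c : c₀ * (n : ℝ) ≤ n' := Nat.le_ceil _
  have hn'n : n' ≤ n := by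
    apply Nat.ceil_le.2
    nlinarith
  have hn'0 : n₀ ≤ n' := by
    have h1 : (n₀ : ℝ) / c₀ ≤ n := hn₄.trans (by exact_mod_cast hn4)
    rw [div_le_iff₀ hc0] at h1
    have h2 : (n₀ : ℝ) ≤ n' := by linarith
    exact_mod_cast h2
  have hge : ∀ a : ℕ, n' ≤ a → c₀ * (n : ℝ) ≤ a := fun a ha =>
    hn'c.trans (by exact_mod_cast ha)
  have hge' : ∀ a : ℕ, c₀ * (n : ℝ) ≤ a → n' ≤ a := fun a ha => Nat.ceil_le.2 ha
  -- the minimal one
  have hSne : S.Nonempty := by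
    rw [Finset.nonempty_iff_ne_empty]
    rintro rfl
    rw [Finset.card_empty, Nat.cast_zero] at hcon
    have : 0 < κ * 2 ^ n := by positivity
    linarith
  obtain ⟨i₁, hi₁, hmin⟩ := Finset.exists_min_image S (fun i => X (ray v n i n')) hSne
  set c := X (ray v n i₁ n') with hc
  set S₁ := S.filter (fun i => X (ray v n i n') ≤ c + exp (-(η₂ * n))) with hS₁
  have hS1card : (S₁.card : ℝ) ≤ κ * 2 ^ n := by
    set U := S₁.image (fun i => i / 2 ^ (n - n')) with hU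
    have hUc : (U.card : ℝ) ≤ κ * 2 ^ n' := by
      apply hNC X Y T hC c v n' hn'0 U
      intro u hu
      rw [hU, Finset.mem_image] at hu
      obtain ⟨i, hi, rfl⟩ := hu
      rw [hS₁, Finset.mem_filter] at hi
      obtain ⟨hiS, hix⟩ := hi
      obtain ⟨hi2, hiT⟩ := hS i hiS
      constructor
      · rw [Nat.div_lt_iff_lt_mul (by positivity), ← pow_add,
          show n' + (n - n') = n by omega]
        exact hi2
      · have hray : desc v n' (i / 2 ^ (n - n')) = ray v n i n' := rfl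
        rw [hray]
        have hT1 := hiT n' hn'c hn'n
        have hM : M X T c (ray v n i n') ≤ exp (-(η₂ * n)) := by
          unfold M
          apply max_le
          · apply exp_le_exp.2
            nlinarith
          · rw [abs_of_nonneg (by linarith [hmin i hiS])]
            linarith
        have hMv : exp (-(η * n)) ≤ M X T c v := by
          unfold M
          refine le_trans ?_ (le_max_left _ _)
          apply exp_le_exp.2
          linarith
        have hstrict : exp (-(η₂ * n)) < exp (-(ε * n')) * exp (-(η * n)) := by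
          rw [← exp_add]
          apply exp_lt_exp.2
          have h1 : ε * (n' : ℝ) ≤ ε * n :=
            mul_le_mul_of_nonneg_left (by exact_mod_cast hn'n) hε0.le
          have h2 : (ε + η) * n < η₂ * n :=
            mul_lt_mul_of_pos_right (by rw [hε]; linarith) hnR
          linarith
        have h3 : exp (-(ε * n')) * exp (-(η * n)) ≤ exp (-(ε * n')) * M X T c v :=
          mul_le_mul_of_nonneg_left hMv (exp_pos _).le
        linarith
    have h1 : (S₁.card : ℝ) ≤ U.card * 2 ^ (n - n') := by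
      exact_mod_cast card_le_fiber S₁ (n - n')
    calc (S₁.card : ℝ) ≤ U.card * 2 ^ (n - n') := h1
      _ ≤ κ * 2 ^ n' * 2 ^ (n - n') := mul_le_mul_of_nonneg_right hUc (by positivity)
      _ = κ * 2 ^ n := by rw [mul_assoc, ← pow_add, show n' + (n - n') = n by omega]
  -- the second ray
  have hex : ∃ i₂ ∈ S, c + exp (-(η₂ * n)) < X (ray v n i₂ n') := by
    by_contra hno
    push Not at hno
    have : S₁ = S := by
      rw [hS₁]
      exact Finset.filter_true_of_mem hno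
    rw [this] at hS1card
    linarith
  obtain ⟨i₂, hi₂, hi₂x⟩ := hex
  obtain ⟨hi1lt, hi1T⟩ := hS i₁ hi₁
  obtain ⟨hi2lt, hi2T⟩ := hS i₂ hi₂
  -- variation
  have hvar : ∀ i ∈ S, ∀ a : ℕ, n' ≤ a → a ≤ n →
      |X (ray v n i a) - X (ray v n i n')| ≤ exp (-(η₂ * n)) / 3 := by
    intro i hi a ha1 ha2
    obtain ⟨hi0, hiT⟩ := hS i hi
    obtain ⟨k, rfl⟩ := Nat.exists_eq_add_of_le ha1
    have h1 := ray_var hC v n i n' (η' * n) (fun a h1 h2 => (hiT a (hge a h1) h2).le) k ha2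
    refine h1.trans ?_
    have hkn : (k : ℝ) ≤ n := by
      have : k ≤ n := by omega
      exact_mod_cast this
    have h2 : (k : ℝ) * (Λ * exp (-(η' * n))) ≤ n * (Λ * exp (-(η' * n))) :=
      mul_le_mul_of_nonneg_right hkn (mul_nonneg hC.pos.le (exp_pos _).le)
    have h3 : n * (Λ * exp (-(η' * n))) ≤ exp (-(η₂ * n)) / 3 := by
      have e : exp (-(η₂ * n)) = exp ((η' - η₂) * n) * exp (-(η' * n)) := by
        rw [← exp_add]; congr 1; ring
      rw [e, le_div_iff₀ (by norm_num)]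
      have := mul_le_mul_of_nonneg_right has1 (exp_pos (-(η' * n))).le
      linarith
    linarith
  refine hTS X Y T hC hT n hn1 v ?_ i₁ i₂ hi1lt hi2lt (c + exp (-(η₂ * n)) / 3)
    (c + 2 * exp (-(η₂ * n)) / 3) ?_ ?_ ?_
  · refine hv.trans (mul_le_mul_of_nonneg_right (by linarith) hnR.le)
  · have e : exp (-(η₂ * n)) = exp ((a₀ - η₂) * n) * exp (-a₀ * n) := by
      rw [← exp_add]; congr 1; ring
    have := mul_le_mul_of_nonneg_right has2 (exp_pos (-a₀ * (n : ℝ))).le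
    rw [← e] at this
    linarith
  · intro a ha1 ha2
    have := (abs_le.1 (hvar i₁ hi₁ a (hge' a ha1) ha2)).2
    rw [hc]
    linarith
  · intro a ha1 ha2
    have := (abs_le.1 (hvar i₂ hi₂ a (hge' a ha1) ha2)).1
    linarith

end Helper67.SQ
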